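import Pool.Agent.W_MP_be6f00_gt.Final

/-!
# Locally unknotted, knotted polyhedral 3-knots of total absolute curvature close to 2

The answer to Q1 is negative for `n = 3`.  Definitions: `Pool.Agent.W_MP_be6f00_gt.Defs`.

The construction: `U` is an explicit unknotted polyhedral 2-sphere in `ℝ⁴`, cut by a hyperplane
`t = 0` in a doubly slice knot `J` into two discs.  Put `ℝ⁴` as the boundary of
`{x, y ≥ 0} × ℝ³` in `ℝ⁵`, take the cone over `U` from an interior point, and reflect it in `x` and
`y`: the union `Σ` of the four cones is a 3-sphere.  A long linear stretch of `Σ` has total absolute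
curvature close to 2.
-/

namespace Pool.Agent.Results.MP_be6f00_gt.LowCurvatureKnots

open Pool.Agent.PolyKnots
open scoped ENNReal

/-- For every `ε > 0` there is a polyhedral 3-knot in `E⁵` that is locally unknotted, whose total
absolute curvature is less than `2 + ε` for every coefficient field, and that is not unknotted; no
homeomorphism of `E⁵` maps it onto the standard 3-sphere. -/
theorem result (ε : ℝ≥0∞) (hε : 0 < ε) : ∃ k : PolyKnot 3, k.LocallyUnknotted ∧
    (∀ h : EuclideanSpace ℝ (Fin 5) ≃ₜ EuclideanSpace ℝ (Fin 5), h '' k.image ≠ stdSphere 3) ∧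
    ¬ k.Unknotted ∧ ∀ (F : Type) [Field F], k.TA F < 2 + ε :=
  final ε hε

end Pool.Agent.Results.MP_be6f00_gt.LowCurvatureKnots
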